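import Pool.Agent.H752.KM.Stubs

/-! K11 (helper602): mass distribution. -/

set_option autoImplicit false

namespace Pool.Agent.H752.KM

open Pool.Agent.NPC Pool.Agent.H620R2.Gauge MeasureTheory Finset

namespace K11

open Classical in
theorem card_le (T : Set ℕ) (N : ℕ) :
    ((Finset.range N).filter (fun i => str i ∈ {y : List Bool | ∃ n ∈ T, y = uu n})).card ≤
      cnt T N := by
  have hfin : {n ∈ T | 2 ^ 2 ^ n ≤ N}.Finite := by
    refine (Set.finite_lt_nat (N + 1)).subset ?_
    rintro n ⟨_, hn⟩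
    have h1 : n < 2 ^ n := Nat.lt_two_pow_self
    have h2 : 2 ^ n < 2 ^ 2 ^ n := Nat.lt_two_pow_self
    show n < N + 1
    omega
  unfold cnt
  rw [Set.ncard_eq_toFinset_card _ hfin]
  have hsub : (Finset.range N).filter (fun i => str i ∈ {y : List Bool | ∃ n ∈ T, y = uu n}) ⊆
      hfin.toFinset.image (fun n => idx (uu n)) := by
    intro i hi
    rw [Finset.mem_filter, Finset.mem_range] at hi
    obtain ⟨hiN, n, hn, he⟩ := hi
    have h1 : idx (uu n) = i := by rw [← he, idx_str]
    rw [Finset.mem_image]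
    refine ⟨n, ?_, h1⟩
    rw [Set.Finite.mem_toFinset]
    refine ⟨hn, ?_⟩
    have h2 := le_idx (uu n)
    have h3 : (uu n).length = 2 ^ n := by simp [uu]
    rw [h3, h1] at h2
    omega
  exact (Finset.card_le_card hsub).trans Finset.card_image_le

end K11

theorem t_mass : St_mass := by
  classical
  intro T f C Φ O hf hΦ hO hnull
  obtain ⟨N₀, hN₀⟩ := Filter.eventually_atTop.1 hf
  -- the bound for the short sequences
  obtain ⟨δ, hδ, hδ1, hδ2⟩ : ∃ δ : ℝ, 0 < δ ∧ 2 ^ C * δ < 1 ∧
      ∀ N < N₀, δ < 2 ^ (f N - N) := by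
    have h1 : ∀ M : ℕ, ∃ δ : ℝ, 0 < δ ∧ 2 ^ C * δ < 1 ∧ ∀ N < M, δ < 2 ^ (f N - N) := by
      intro M
      induction M with
      | zero =>
        have hC : (0 : ℝ) < 2 ^ C := Real.rpow_pos_of_pos (by norm_num) _
        refine ⟨1 / (2 * 2 ^ C), by positivity, ?_, fun N hN => by omega⟩
        rw [mul_one_div, div_lt_one (by positivity)]
        linarith
      | succ M ih =>
        obtain ⟨δ, h1, h2, h3⟩ := ih
        have h4 : (0 : ℝ) < 2 ^ (f M - M) := Real.rpow_pos_of_pos (by norm_num) _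
        have hC : (0 : ℝ) < 2 ^ C := Real.rpow_pos_of_pos (by norm_num) _
        refine ⟨min δ (2 ^ (f M - M) / 2), lt_min h1 (by positivity), ?_, ?_⟩
        · exact (mul_le_mul_of_nonneg_left (min_le_left _ _) hC.le).trans_lt h2
        · intro N hN
          rcases Nat.lt_succ_iff_lt_or_eq.1 hN with h | h
          · exact (min_le_left _ _).trans_lt (h3 N h)
          · subst h
            exact (min_le_right _ _).trans_lt (by linarith)
    exact h1 N₀
  obtain ⟨S, hS, hsum⟩ := hnull δ hδ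
  have hm := mass Φ {y | ∃ n ∈ T, y = uu n} (fun B y hy => hΦ B y (by
    intro n hn h
    exact hy ⟨n, hn, h⟩)) S (fun B => hS (Φ B) (hO B))
  have hle : ∀ σ : S, ENNReal.ofReal
      (2 ^ ((((Finset.range σ.1.length).filter
        (fun i => str i ∈ {y : List Bool | ∃ n ∈ T, y = uu n})).card : ℝ) - (σ.1.length : ℝ))) ≤
      ENNReal.ofReal (2 ^ C) * ENNReal.ofReal (2 ^ (f σ.1.length - σ.1.length)) := by
    intro σ
    have hlen : N₀ ≤ σ.1.length := by
      by_contra hlt
      push Not at hlt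
      have h1 := hδ2 _ hlt
      have h2 : ENNReal.ofReal (2 ^ (f σ.1.length - σ.1.length)) ≤ ENNReal.ofReal δ :=
        (ENNReal.le_tsum σ).trans hsum
      have h3 := (ENNReal.ofReal_le_ofReal_iff hδ.le).1 h2
      linarith
    have h1 := hN₀ _ hlen
    rw [← ENNReal.ofReal_mul (by positivity), ← Real.rpow_add (by norm_num)]
    apply ENNReal.ofReal_le_ofReal
    apply Real.rpow_le_rpow_of_exponent_le (by norm_num)
    have h3 : (((Finset.range σ.1.length).filter
        (fun i => str i ∈ {y : List Bool | ∃ n ∈ T, y = uu n})).card : ℝ) ≤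
        cnt T σ.1.length := by exact_mod_cast K11.card_le T σ.1.length
    linarith
  have h0 := hm.trans (ENNReal.tsum_le_tsum hle)
  rw [ENNReal.tsum_mul_left] at h0
  have h1 : (1 : ENNReal) ≤ ENNReal.ofReal (2 ^ C) * ENNReal.ofReal δ :=
    h0.trans (mul_le_mul_right hsum _)
  rw [← ENNReal.ofReal_mul (by positivity), ← ENNReal.ofReal_one] at h1
  have h2 := (ENNReal.ofReal_le_ofReal_iff (by positivity)).1 h1
  linarith

end Pool.Agent.H752.KM
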